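import Mathlib
import Pool.Agent.H16.VHull

set_option autoImplicit false

namespace Pool.Agent.Results.MP_d086ed_co.Counter

open Pool.Agent.H16.VHull

theorem result (n : ℕ) (hn : 3 ≤ n) : ∃ A : Fin n → Set (E n),
    (∀ i, (A i).Nonempty ∧ Convex ℝ (A i)) ∧ Pairwise (Function.onFun Disjoint A) ∧
    ¬ ∃ C : Fin n → Set (E n), (∀ i, Convex ℝ (C i)) ∧ hull (⋃ i, A i) = ⋃ i, C i := by
  obtain ⟨m, rfl⟩ : ∃ m, n = m + 3 := ⟨n - 3, by omega⟩
  exact main m

end Pool.Agent.Results.MP_d086ed_co.Counter
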